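import Pool.Agent.Helper1.TE.Goals

/-!
Project TE (MP_8b4d68_lc): the goal PG.
-/

set_option autoImplicit false
set_option maxHeartbeats 400000

namespace Pool.Agent.Helper48.TE

open Pool.Agent.Helper1.TE

/-- PG. -/
theorem gPG : GoalPG := by
  intro hPB h b hh hb
  obtain ⟨hs1, hsb, hL, _, _, _, _, _, _, _⟩ := hPB h b hh hb
  have hR4 : b ≤ 4 * sP h b * RP h b := by
    unfold RP
    have h1 : 0 < 4 * sP h b := by omega
    have h2 := Nat.lt_mul_div_succ (b + 4 * sP h b - 1) h1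
    have h3 : 4 * sP h b * ((b + 4 * sP h b - 1) / (4 * sP h b) + 1)
        = 4 * sP h b * ((b + 4 * sP h b - 1) / (4 * sP h b)) + 4 * sP h b := by ring
    omega
  have hm4 : sP h b * mP h b ≤ 5 * b := by
    unfold mP
    have h1 := Nat.mul_div_le (4 * b + sP h b - 1) (sP h b)
    omega
  have hRpos : 0 < RP h b := by
    rcases Nat.eq_zero_or_pos (RP h b) with h0 | h0
    · rw [h0] at hR4
      omega
    · exact h0
  have hm : mP h b ≤ 20 * RP h b := by
    have h1 : sP h b * mP h b ≤ sP h b * (20 * RP h b) := by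
      calc sP h b * mP h b ≤ 5 * b := hm4
        _ ≤ 5 * (4 * sP h b * RP h b) := Nat.mul_le_mul_left 5 hR4
        _ = sP h b * (20 * RP h b) := by ring
    exact Nat.le_of_mul_le_mul_left h1 hs1
  have h4 : (2 ^ sP h b - 1) ^ 2 ≤ 4 ^ sP h b := by
    have h5 : (4 : ℕ) ^ sP h b = (2 ^ sP h b) ^ 2 := by
      rw [← pow_mul, mul_comm, pow_mul]
      norm_num
    rw [h5]
    exact Nat.pow_le_pow_left (Nat.sub_le _ _) 2
  have h6 : PM h b (2 ^ EP h b) ≤ (20 * 4 ^ sP h b + 1) * RP h b := by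
    unfold PM
    rw [hL]
    calc mP h b * (2 ^ sP h b - 1) ^ 2 + RP h b
        ≤ (20 * RP h b) * 4 ^ sP h b + RP h b :=
          Nat.add_le_add_right (Nat.mul_le_mul hm h4) _
      _ = (20 * 4 ^ sP h b + 1) * RP h b := by ring
  have h7 : PM h b (2 ^ EP h b) / RP h b ≤ 20 * 4 ^ sP h b + 1 :=
    Nat.div_le_of_le_mul (by rw [mul_comm]; exact h6)
  have h8 : (2 : ℕ) ^ (2 * sP h b + 5) = 32 * 4 ^ sP h b := by
    rw [pow_add, pow_mul]
    norm_num
    ring
  have h9 : 1 ≤ (4 : ℕ) ^ sP h b := Nat.one_le_pow _ _ (by norm_num)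
  unfold GM
  rw [h8]
  omega

end Pool.Agent.Helper48.TE
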