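import Pool.Agent.Helper1.TE.Goals3

/-!
# PROJECT TE: packet TE-T2B (unambiguity of the Turing machine of a numeric machine)
-/

set_option maxHeartbeats 400000

namespace Pool.Agent.Helper48.TE

open Pool.Agent.Helper65.LinSpace (Dir inputSym inputMove Prog Run Ctx LS)
open Pool.Agent.Helper6.Compile (Sy tapeOf tapeOf_zero val single)
open Pool.Agent.Helper1.TE

section

variable {P : ℕ → XP} {k : ℕ} {o' : Fin k} {h0 : ∀ a, xtp (P 0) a < k}
  {h1 : ∀ a, xtp (P 1) a < k} {w : List Bool}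

/-- The successor of the initial configuration. -/
theorem next_init {d : (xTM P o' h0 h1).Cfg} (h : (xTM P o' h0 h1).Next w (xTM P o' h0 h1).init d) :
    d = cfgX P o' h0 h1 .top 0 (fun _ => tapeOf []) fun _ => 0 := by
  obtain ⟨a, ha, rfl⟩ := h
  have ha' : a = (XCtl.top, Dir.stay, fun _ => (Sy.mark, Dir.stay)) := ha
  subst ha'
  have e1 : (fun _ : Fin k => Function.update (fun _ : ℤ => Sy.blank) 0 Sy.mark) =
      (fun _ : Fin k => tapeOf []) := by
    funext _ y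
    by_cases hy : y = 0
    · subst hy; simp [tapeOf_zero]
    · rw [Function.update_of_ne hy]; simp [tapeOf, hy]
  have e2 : (fun _ : Fin k => (0 : ℤ) + Dir.stay.toInt) = (fun _ : Fin k => (0 : ℤ)) := by
    funext _; simp [Dir.toInt]
  exact (NTM.Cfg.mk.injEq (M := xTM P o' h0 h1) _ _ _ _ _ _ _ _).mpr ⟨rfl, rfl, e1, e2⟩

/-- The successors of a top configuration. -/
theorem next_top {n : ℕ} {T : ℕ → ℤ → Sy} {d : (xTM P o' h0 h1).Cfg}
    (h : (xTM P o' h0 h1).Next w (cfgX P o' h0 h1 .top n T fun _ => 0) d) :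
    ∃ γ < 2, d = cfgX P o' h0 h1 (entX P γ) n T fun _ => 0 := by
  obtain ⟨a, ha, rfl⟩ := h
  have ha' : a = (XCtl.run0 (xentry (P 0)), Dir.stay, fun j : Fin k => (T j 0, Dir.stay)) ∨
      a = (XCtl.run1 (xentry (P 1)), Dir.stay, fun j : Fin k => (T j 0, Dir.stay)) := ha
  have e1 : (fun j : Fin k => Function.update (T j) (0 : ℤ) (T j 0)) = (fun j : Fin k => T j) := by
    funext j
    exact Function.update_eq_self _ _
  have e2 : (fun _ : Fin k => (0 : ℤ) + Dir.stay.toInt) = (fun _ : Fin k => (0 : ℤ)) := by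
    funext _; simp [Dir.toInt]
  rcases ha' with rfl | rfl
  · exact ⟨0, by norm_num,
      (NTM.Cfg.mk.injEq (M := xTM P o' h0 h1) _ _ _ _ _ _ _ _).mpr ⟨rfl, rfl, e1, e2⟩⟩
  · exact ⟨1, by norm_num,
      (NTM.Cfg.mk.injEq (M := xTM P o' h0 h1) _ _ _ _ _ _ _ _).mpr ⟨rfl, rfl, e1, e2⟩⟩

/-- The accepting state has no successor. -/
theorem next_acc {c d : (xTM P o' h0 h1).Cfg} (hc : c.state = XCtl.acc)
    (h : (xTM P o' h0 h1).Next w c d) : False := by
  obtain ⟨a, ha, -⟩ := h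
  rw [hc] at ha
  exact ha

variable {α : Type} [Ctx α]

/-- `x` is a top configuration of the state `a`. -/
def TopOf (P : ℕ → XP) {k : ℕ} (o' : Fin k) (h0 : ∀ a, xtp (P 0) a < k)
    (h1 : ∀ a, xtp (P 1) a < k) (W : ℕ) (w : List Bool) (a : α) (x : (xTM P o' h0 h1).Cfg) :
    Prop :=
  ∃ n ≤ w.length + 1, ∃ ls : ℕ → List Bool, Rep ls (Ctx.enc a) W ∧
    x = cfgX P o' h0 h1 .top n (fun i => tapeOf (ls i)) fun _ => 0

/-- The configuration `x` is on a deterministic segment which ends with a top configuration of a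
state reachable from `b`, or with acceptance. -/
def Seg (N : NumMach α) (P : ℕ → XP) {k : ℕ} (o' : Fin k) (h0 : ∀ a, xtp (P 0) a < k)
    (h1 : ∀ a, xtp (P 1) a < k) (W : ℕ) (w : List Bool) (b : α) (x : (xTM P o' h0 h1).Cfg) :
    Prop :=
  ∃ e a, Relation.ReflTransGen (NStep N w) b a ∧
    Relation.ReflTransGen (Det (xTM P o' h0 h1) w (W + 1)) x e ∧
    ((e.state = XCtl.acc ∧ N.acc a ≠ 0) ∨ (N.acc a = 0 ∧ TopOf P o' h0 h1 W w a e))

/-- The property of one round which is used. -/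
def OneRound (N : NumMach α) (P : ℕ → XP) {k : ℕ} (o' : Fin k) (h0 : ∀ a, xtp (P 0) a < k)
    (h1 : ∀ a, xtp (P 1) a < k) (W : ℕ) (w : List Bool) : Prop :=
  ∀ a, N.Reach w a → ∀ γ < 2, ∀ n ≤ w.length + 1, ∀ ls : ℕ → List Bool, Rep ls (Ctx.enc a) W →
    Seg N P o' h0 h1 W w (N.nx w a γ)
      (cfgX P o' h0 h1 (entX P γ) n (fun i => tapeOf (ls i)) fun _ => 0)

theorem seg_cases {N : NumMach α} {W : ℕ} {b : α} {x : (xTM P o' h0 h1).Cfg}
    (h : Seg N P o' h0 h1 W w b x) :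
    (x.state = XCtl.acc ∧ ∃ a, Relation.ReflTransGen (NStep N w) b a ∧ N.acc a ≠ 0) ∨
    (∃ a, Relation.ReflTransGen (NStep N w) b a ∧ N.acc a = 0 ∧ TopOf P o' h0 h1 W w a x) ∨
    (∃ y, (∀ d, (xTM P o' h0 h1).Next w x d ↔ d = y) ∧ Seg N P o' h0 h1 W w b y) := by
  obtain ⟨e, a, hba, hxe, he⟩ := h
  rcases hxe.cases_head with rfl | ⟨y, hxy, hye⟩
  · rcases he with ⟨h2, h3⟩ | ⟨h2, h3⟩
    · exact Or.inl ⟨h2, a, hba, h3⟩
    · exact Or.inr (Or.inl ⟨a, hba, h2, h3⟩)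
  · exact Or.inr (Or.inr ⟨y, hxy.1, e, a, hba, hye, he⟩)

/-- From a top configuration: the two successors. -/
theorem top_next {N : NumMach α} {W : ℕ} (hR : OneRound N P o' h0 h1 W w) {a : α}
    (ha : N.Reach w a) {x d : (xTM P o' h0 h1).Cfg} (hx : TopOf P o' h0 h1 W w a x)
    (hd : (xTM P o' h0 h1).Next w x d) :
    ∃ γ < 2, Seg N P o' h0 h1 W w (N.nx w a γ) d ∧
      ∀ d', (xTM P o' h0 h1).Next w x d' → d' ≠ d → Seg N P o' h0 h1 W w (N.nx w a (1 - γ)) d' := by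
  obtain ⟨n, hn, ls, hls, rfl⟩ := hx
  obtain ⟨γ, hγ, rfl⟩ := next_top hd
  refine ⟨γ, hγ, hR a ha γ hγ n hn ls hls, ?_⟩
  intro d' hd' hne
  obtain ⟨γ', hγ', rfl⟩ := next_top hd'
  have h2 : γ' ≠ γ := by
    rintro rfl
    exact hne rfl
  have h3 : γ' = 1 - γ := by omega
  rw [← h3]
  exact hR a ha γ' hγ' n hn ls hls

/-- The property `Seg` is preserved. -/
theorem seg_next {N : NumMach α} {W : ℕ} (hR : OneRound N P o' h0 h1 W w) {b : α}
    (hb : N.Reach w b) {x d : (xTM P o' h0 h1).Cfg} (hx : Seg N P o' h0 h1 W w b x)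
    (hd : (xTM P o' h0 h1).Next w x d) : Seg N P o' h0 h1 W w b d := by
  rcases seg_cases hx with ⟨h2, -⟩ | ⟨a, hba, ha, htop⟩ | ⟨y, hy, hs⟩
  · exact (next_acc h2 hd).elim
  · have hra : N.Reach w a := Relation.ReflTransGen.trans hb hba
    obtain ⟨γ, hγ, ⟨e, a', h3, h4, h5⟩, -⟩ := top_next hR hra htop hd
    exact ⟨e, a', hba.trans (Relation.ReflTransGen.head ⟨γ, hγ, rfl⟩ h3), h4, h5⟩
  · rw [(hy d).1 hd]
    exact hs

/-- If acceptance is reached from a segment of `b` then it is reached from `b`. -/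
theorem seg_acc {N : NumMach α} {W : ℕ} (hR : OneRound N P o' h0 h1 W w) {b : α}
    (hb : N.Reach w b) (c : ℕ → (xTM P o' h0 h1).Cfg) (i t : ℕ) (hit : i ≤ t)
    (hc : ∀ j, i ≤ j → j < t → (xTM P o' h0 h1).Next w (c j) (c (j + 1)))
    (hi : Seg N P o' h0 h1 W w b (c i)) (ht : (c t).state = XCtl.acc) :
    ∃ y, Relation.ReflTransGen (NStep N w) b y ∧ N.acc y ≠ 0 := by
  have h2 : ∀ s, i + s ≤ t → Seg N P o' h0 h1 W w b (c (i + s)) := by
    intro s
    induction s with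
    | zero => intro _; exact hi
    | succ s ih =>
      intro hs
      exact seg_next hR hb (ih (by omega)) (hc (i + s) (by omega) (by omega))
  have h3 := h2 (t - i) (by omega)
  rw [show i + (t - i) = t by omega] at h3
  rcases seg_cases h3 with ⟨-, h4⟩ | ⟨a, -, -, n, -, ls, -, h5⟩ | ⟨y, hy, -⟩
  · exact h4
  · rw [h5] at ht
    exact absurd ht (by simp [cfgX])
  · exact (next_acc ht ((hy y).2 rfl)).elim

/-- Two computations agree. -/
theorem comp_eq {N : NumMach α} {W : ℕ} (hR : OneRound N P o' h0 h1 W w)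
    (hU : NUnamb N w) (hst : Seg N P o' h0 h1 W w N.start
      (cfgX P o' h0 h1 .top 0 (fun _ => tapeOf []) fun _ => 0))
    {t t' : ℕ} {c c' : ℕ → (xTM P o' h0 h1).Cfg} (hc : (xTM P o' h0 h1).AccComp w t c)
    (hc' : (xTM P o' h0 h1).AccComp w t' c') :
    ∀ i, i ≤ t → i ≤ t' → c i = c' i ∧ (i ≠ 0 → Seg N P o' h0 h1 W w N.start (c i)) := by
  obtain ⟨a1, a2, a3, a4⟩ := hc
  obtain ⟨b1, b2, b3, b4⟩ := hc'
  have hacc : (c t).state = XCtl.acc := a4
  have hacc' : (c' t').state = XCtl.acc := b4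
  have hst0 : N.Reach w N.start := Relation.ReflTransGen.refl
  intro i
  induction i with
  | zero =>
    intro _ _
    exact ⟨a1.trans b1.symm, fun h => absurd rfl h⟩
  | succ i ih =>
    intro hit hit'
    obtain ⟨h2, h3⟩ := ih (by omega) (by omega)
    have n1 := a2 i (by omega)
    have n2 := b2 i (by omega)
    rw [← h2] at n2
    rcases Nat.eq_zero_or_pos i with hi0 | hi0
    · subst hi0
      rw [a1] at n1 n2
      have e1 := next_init n1
      have e2 := next_init n2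
      refine ⟨e1.trans e2.symm, fun _ => ?_⟩
      rw [e1]
      exact hst
    · have hs := h3 (by omega)
      refine ⟨?_, fun _ => seg_next hR hst0 hs n1⟩
      rcases seg_cases hs with ⟨h4, -⟩ | ⟨a, hba, ha, htop⟩ | ⟨y, hy, -⟩
      · exact (next_acc h4 n1).elim
      · by_contra hne
        have hra : N.Reach w a := hba
        obtain ⟨γ, hγ, s1, s2⟩ := top_next hR hra htop n1
        have s3 := s2 _ n2 (fun h => hne h.symm)
        have r1 : N.Reach w (N.nx w a γ) := Relation.ReflTransGen.tail hra ⟨γ, hγ, rfl⟩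
        have r2 : N.Reach w (N.nx w a (1 - γ)) :=
          Relation.ReflTransGen.tail hra ⟨1 - γ, by omega, rfl⟩
        obtain ⟨y, y1, y2⟩ := seg_acc hR r1 c (i + 1) t hit (fun j _ hj => a2 j hj) s1 hacc
        obtain ⟨z, z1, z2⟩ := seg_acc hR r2 c' (i + 1) t' hit' (fun j _ hj => b2 j hj) s3 hacc'
        have hγ2 : γ = 0 ∨ γ = 1 := by omega
        rcases hγ2 with rfl | rfl
        · exact hU a y z hra ha y1 y2 z1 z2
        · exact hU a z y hra ha z1 z2 y1 y2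
      · rw [(hy _).1 n1, (hy _).1 n2]

theorem oneRound_of {N : NumMach α} {c : ℕ} {o : ℕ} (hRound : Round) (hB : Body N P o c)
    (hacc : ∀ a, N.acc a ≤ 1) (ho : (o' : ℕ) = o) (S : ℕ)
    (hS : ∀ a, N.Reach w a → ∀ i, Ctx.enc a i < 2 ^ S) :
    OneRound N P o' h0 h1 ((S + 2) * c + 1) w := by
  intro a ha γ hγ n hn ls hls
  have h2 : (2 ^ S + 2) ^ c < 2 ^ ((S + 2) * c + 1) := by
    have h3 : 2 ^ S + 2 ≤ 2 ^ (S + 2) := by
      have h4 : 1 ≤ 2 ^ S := Nat.one_le_two_pow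
      have h5 : 2 ^ (S + 2) = 4 * 2 ^ S := by ring
      omega
    calc (2 ^ S + 2) ^ c ≤ (2 ^ (S + 2)) ^ c := Nat.pow_le_pow_left h3 c
      _ = 2 ^ ((S + 2) * c) := by rw [pow_mul]
      _ < 2 ^ ((S + 2) * c + 1) := Nat.pow_lt_pow_right (by norm_num) (by omega)
  obtain ⟨r1, r2⟩ := hRound N P o c hB hacc k o' ho h0 h1 w a γ n (2 ^ S) ((S + 2) * c + 1) ls hγ
    hn (fun i => (hS a ha i).le) h2 hls
  by_cases h3 : N.acc (N.nx w a γ) = 0
  · obtain ⟨n', hn', ls', hls', hdet⟩ := r1 h3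
    exact ⟨_, N.nx w a γ, Relation.ReflTransGen.refl, hdet, Or.inr ⟨h3, n', hn', ls', hls', rfl⟩⟩
  · obtain ⟨c₂, hc₂, hdet⟩ := r2 h3
    exact ⟨c₂, N.nx w a γ, Relation.ReflTransGen.refl, hdet, Or.inl ⟨hc₂, h3⟩⟩

end

/-- Packet TE-T2B. -/
theorem gT2B : GoalT2B := by
  intro hRound _ α _ N P o c hB hacc hst hst0 k o' ho h0 h1 w S hS hU
  have hR : OneRound N P o' h0 h1 ((S + 2) * c + 1) w := oneRound_of hRound hB hacc ho S hS
  have hs : Seg N P o' h0 h1 ((S + 2) * c + 1) w N.start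
      (cfgX P o' h0 h1 .top 0 (fun _ => tapeOf []) fun _ => 0) := by
    refine ⟨_, N.start, Relation.ReflTransGen.refl, Relation.ReflTransGen.refl,
      Or.inr ⟨hst0, 0, by omega, fun _ => [], fun i => ⟨?_, ?_⟩, rfl⟩⟩
    · rw [hst i]
      rfl
    · exact Nat.zero_le _
  intro t cc t' cc' hc hc'
  have hmain := comp_eq hR hU hs hc hc'
  have htt : t = t' := by
    rcases lt_trichotomy t t' with hlt | heq | hgt
    · exfalso
      have h2 := (hmain t le_rfl hlt.le).1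
      apply hc'.2.2.1 t hlt
      rw [← h2]
      exact hc.2.2.2
    · exact heq
    · exfalso
      have h2 := (hmain t' hgt.le le_rfl).1
      apply hc.2.2.1 t' hgt
      rw [h2]
      exact hc'.2.2.2
  subst htt
  exact ⟨rfl, fun i hi => (hmain i hi hi).1⟩

end Pool.Agent.Helper48.TE
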